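import Mathlib
import Pool.Agent.H55.BlockingAux

set_option autoImplicit false

universe u

namespace Pool.Agent.Results.MP_cb714e_co.BlockingSubcubic

open SimpleGraph Pool.Agent.H55

/-- There is an absolute constant `c` such that every finite simple graph `G` of maximum degree
at most three has a connected partition `R` of its vertex set, all of whose parts have at most
`c` vertices, such that every `R`-clean path (a path meeting every part in at most one vertex)
has length at most five. -/
theorem result :
    ∃ c : ℕ, 1 ≤ c ∧
      ∀ (V : Type u) [Fintype V] [DecidableEq V] (G : SimpleGraph V) [DecidableRel G.Adj],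
        G.maxDegree ≤ 3 →
          ∃ R : Finpartition (Finset.univ : Finset V),
            (∀ P ∈ R.parts, (G.induce (P : Set V)).Connected) ∧
            (∀ P ∈ R.parts, P.card ≤ c) ∧
            ∀ (u v : V) (w : G.Walk u v), w.IsPath →
              (∀ P ∈ R.parts, (w.support.toFinset ∩ P).card ≤ 1) → w.length ≤ 5 := by
  obtain ⟨S, hS⟩ := exists_cut.{u}
  refine ⟨4 ^ S, Nat.one_le_pow _ _ (by norm_num), ?_⟩
  intro V _ _ G _ hG
  classical
  obtain ⟨F, K, hFG, hmax, hKF, hHit, hK⟩ := hS V G hG
  let F' : SimpleGraph V := F.deleteEdges K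
  have hF'G : F' ≤ G := (SimpleGraph.deleteEdges_le K).trans hFG
  let R : Finpartition (Finset.univ : Finset V) := Finpartition.ofSetoid F'.reachableSetoid
  have hpart : ∀ P ∈ R.parts, ∃ x, ∀ y, y ∈ P ↔ F'.Reachable x y := by
    intro P hP
    obtain ⟨x, hx⟩ := R.nonempty_of_mem_parts hP
    refine ⟨x, fun y => ?_⟩
    have h1 : R.part x = P := R.part_eq_of_mem hP hx
    rw [← h1]
    exact Finpartition.mem_part_ofSetoid_iff_rel
  refine ⟨R, ?_, ?_, ?_⟩
  · intro P hP
    obtain ⟨x, hx⟩ := hpart P hP
    have h1 : (P : Set V) = (F'.connectedComponentMk x).supp := by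
      ext y
      rw [Finset.mem_coe, hx y, SimpleGraph.ConnectedComponent.mem_supp_iff,
        SimpleGraph.ConnectedComponent.eq]
      exact ⟨fun h => h.symm, fun h => h.symm⟩
    rw [h1]
    have h2 : (F'.induce (F'.connectedComponentMk x).supp).Connected :=
      SimpleGraph.ConnectedComponent.connected_toSimpleGraph _
    exact h2.mono (fun a b hab => hF'G hab)
  · intro P hP
    obtain ⟨x, hx⟩ := hpart P hP
    have h1 : P ⊆ ball G x S := by
      intro y hy
      exact component_small G F K S hFG hHit ((hx y).mp hy)
    exact (Finset.card_le_card h1).trans (ball_card G hG x S)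
  · intro u v w hw hclean
    refine blocking_aux G F hG K hFG hmax hK w hw ?_
    intro i j hi hj hij hadj
    have h1 : R.part (w.getVert i) ∈ R.parts := R.part_mem.mpr (Finset.mem_univ _)
    have h2 := hclean _ h1
    have h3 : w.getVert i ∈ R.part (w.getVert i) := R.mem_part (Finset.mem_univ _)
    have h4 : w.getVert j ∈ R.part (w.getVert i) :=
      Finpartition.mem_part_ofSetoid_iff_rel.mpr hadj.reachable
    have h5 : w.getVert i = w.getVert j := by
      rw [Finset.card_le_one] at h2
      exact h2 _ (by simp [h3, SimpleGraph.Walk.getVert_mem_support]) _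
        (by simp [h4, SimpleGraph.Walk.getVert_mem_support])
    exact hij (hw.getVert_injOn hi hj h5)

end Pool.Agent.Results.MP_cb714e_co.BlockingSubcubic
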